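import Pool.Agent.H.MP_0d0865_co.AH.Main

/-!
# Decompositions of the complete 4-graph into tight cycle factors: powers of 3

For every `d ≥ 2` the complete 4-graph on `n = 3^d` vertices decomposes into copies of the disjoint
union of `3^(d-2)` tight cycles of length 9.

The proof uses the affine space of dimension `d` over the field with 3 elements: four points span a plane or a
subspace of dimension 3. The complete 4-graph on the 9 points of the plane has a decomposition into tight Hamilton cycles
(2 base cycles under a group of order 7), and the 4-sets which span the space of dimension 3 decompose into factors with three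
cycles (52 base cycles and their translates; 2 base cycles under a group of order 26). This is done at the same time in all the
translates of the plane or of the subspace.
-/

set_option autoImplicit false

namespace Pool.Agent.Results.MP_0d0865_co.FourUniform

/-- The complete `k`-graph on `n` vertices decomposes into copies of the disjoint union of tight
cycles of lengths `ℓ i` (the conclusion of the frozen statement S07169, word for word). -/
def Decomposes (k n : ℕ) {m : ℕ} (ℓ : Fin m → ℕ) : Prop :=
  ∃ r : ℕ, ∃ φ : Fin r → ((Σ i : Fin m, ZMod (ℓ i)) ↪ Fin n),
    ∀ s : Finset (Fin n), s.card = k →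
      ∃! p : Fin r × (Σ i : Fin m, ZMod (ℓ i)),
        s = (Finset.range k).image
          (fun j : ℕ => φ p.1 ⟨p.2.1, p.2.2 + (j : ZMod (ℓ p.2.1))⟩)

theorem result (d : ℕ) (hd : 2 ≤ d) :
    Decomposes 4 (3 ^ d) (fun _ : Fin (3 ^ (d - 2)) => 9) :=
  Pool.Agent.H.MP_0d0865_co.AH.four d hd

end Pool.Agent.Results.MP_0d0865_co.FourUniform
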