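import Pool.Agent.H.Tcs70.Cyc

set_option autoImplicit false

namespace Pool.Agent.Results.MP_0d0865_co.ManyFold

open Finset Tcs70

lemma card_sigma {m : ℕ} {ℓ : Fin m → ℕ} [∀ i, NeZero (ℓ i)] :
    Fintype.card (Σ i : Fin m, ZMod (ℓ i)) = ∑ i, ℓ i := by
  rw [Fintype.card_sigma]
  exact Finset.sum_congr rfl fun i _ => ZMod.card (ℓ i)

lemma bij {n m : ℕ} {ℓ : Fin m → ℕ} [∀ i, NeZero (ℓ i)] (hn : (∑ i, ℓ i) = n)
    (φ : (Σ i : Fin m, ZMod (ℓ i)) ↪ Fin n) : Function.Bijective φ :=
  (Fintype.bijective_iff_injective_and_card φ).2 ⟨φ.injective, by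
    rw [card_sigma, hn, Fintype.card_fin]⟩

lemma count {n m k r : ℕ} {ℓ : Fin m → ℕ} [∀ i, NeZero (ℓ i)]
    (φ : Fin r → ((Σ i : Fin m, ZMod (ℓ i)) ↪ Fin n)) (s : Finset (Fin n)) :
    (Nat.card {p : Fin r × (Σ i : Fin m, ZMod (ℓ i)) // s = (Finset.range k).image
      fun j : ℕ => φ p.1 ⟨p.2.1, p.2.2 + (j : ZMod (ℓ p.2.1))⟩} : ℤ) =
      ∑ j, ∑ q, e (win k (φ j) q) s := by
  classical
  rw [Nat.card_eq_fintype_card, Fintype.card_subtype, Finset.card_filter]
  push_cast
  rw [Fintype.sum_prod_type]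
  refine Finset.sum_congr rfl fun j _ => Finset.sum_congr rfl fun q _ => ?_
  rw [e, Pi.single_apply]
  rfl

/-- For every `k ≥ 2`, every `n ≥ 6k` and every tight cycle factor `F` on `n` vertices with cycle
lengths `ℓ i ≥ 2k - 1`: an integer weighting `w` of the `k`-subsets has all vertex degrees equal to
one multiple of `k` if and only if for all large `l` with `k ∣ l * C(n-1, k-1)` the multiset with
`w s + l` copies of each `k`-set `s` splits into copies of `F`. -/
theorem result : ∀ k : ℕ, 2 ≤ k → ∀ n : ℕ, 6 * k ≤ n →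
    ∀ (m : ℕ) (ℓ : Fin m → ℕ), (∀ i, 2 * k - 1 ≤ ℓ i) → (∑ i, ℓ i) = n →
      ∀ w : Finset (Fin n) → ℤ,
        (∃ c : ℤ, ∀ v : Fin n,
          ∑ s ∈ (Finset.univ : Finset (Finset (Fin n))) with (s.card = k ∧ v ∈ s), w s = k * c) ↔
        ∃ Λ : ℕ, ∀ l : ℕ, Λ ≤ l → k ∣ l * Nat.choose (n - 1) (k - 1) →
          ∃ (r : ℕ) (φ : Fin r → ((Σ i : Fin m, ZMod (ℓ i)) ↪ Fin n)),
            ∀ s : Finset (Fin n), s.card = k →
              (Nat.card {p : Fin r × (Σ i : Fin m, ZMod (ℓ i)) // s = (Finset.range k).image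
                fun j : ℕ => φ p.1 ⟨p.2.1, p.2.2 + (j : ZMod (ℓ p.2.1))⟩} : ℤ) = w s + l := by
  classical
  intro k hk2 n hn m ℓ hℓ hsum w
  have : ∀ i, NeZero (ℓ i) := fun i => ⟨by have := hℓ i; omega⟩
  have hkℓ : ∀ i, k ≤ ℓ i := fun i => by have := hℓ i; omega
  have hcardV : Fintype.card (Fin n) = n := Fintype.card_fin n
  constructor
  · rintro ⟨c, hc⟩
    let φ0 : (Σ i : Fin m, ZMod (ℓ i)) ≃ Fin n := Fintype.equivOfCardEq (by
      rw [card_sigma, hsum, Fintype.card_fin])
    have hb0 : Function.Bijective φ0 := φ0.bijective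
    have hne : Nonempty (Σ i : Fin m, ZMod (ℓ i)) := by
      rw [← Fintype.card_pos_iff, card_sigma, hsum]; omega
    set w' : Finset (Fin n) → ℤ := fun s => if s.card = k then w s else 0 with hw'
    obtain ⟨Λ, hΛ⟩ := big (win k φ0) k k (by omega) (by rw [hcardV]; omega)
      (win_card k hkℓ φ0 hb0.1) (win_deg k hkℓ φ0 hb0)
      (octs_le_cyc k hk2 hℓ φ0 hb0 (by rw [hcardV]; exact hn)) w'
      (fun s hs => by simp [hw', hs]) c (fun v => by
        rw [← hc v]
        simp only [hw']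
        rw [← Finset.sum_filter, Finset.filter_filter]
        refine Finset.sum_congr ?_ fun _ _ => rfl
        ext s
        simp [and_comm])
    refine ⟨Λ, fun l hl hdvd => ?_⟩
    obtain ⟨r, σ, hσ⟩ := N_list _ _ (hΛ l hl (by rw [hcardV]; exact hdvd))
    refine ⟨r, fun j => φ0.toEmbedding.trans (σ j).toEmbedding, fun s hs => ?_⟩
    refine (count (k := k) (fun j => φ0.toEmbedding.trans (σ j).toEmbedding) s).trans ?_
    have h1 := congrFun hσ s
    simp only [Pi.add_apply, Pi.smul_apply, smul_eq_mul, hw', hs, if_true, J, mul_one] at h1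
    rw [h1, Finset.sum_apply]
    refine Finset.sum_congr rfl fun j _ => ?_
    rw [vec, Finset.sum_apply]
    refine Finset.sum_congr rfl fun q _ => ?_
    congr 2
    simp only [win, Finset.map_eq_image, Finset.image_image]
    rfl
  · rintro ⟨Λ, hΛ⟩
    obtain ⟨r, φ, hφ⟩ := hΛ (k * Λ) (Nat.le_mul_of_pos_left Λ (by omega))
      (Dvd.dvd.mul_right (Dvd.intro Λ rfl) _)
    refine ⟨(r : ℤ) - Λ * ((n - 1).choose (k - 1) : ℕ), fun v => ?_⟩
    have h1 : ∑ s ∈ (Finset.univ : Finset (Finset (Fin n))) with (s.card = k ∧ v ∈ s),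
        (w s + (k * Λ : ℕ)) = k * r := by
      have h2 : ∑ s ∈ (Finset.univ : Finset (Finset (Fin n))) with (s.card = k ∧ v ∈ s),
          (w s + (k * Λ : ℕ)) =
          ∑ s ∈ (Finset.univ : Finset (Finset (Fin n))) with (s.card = k ∧ v ∈ s),
            ∑ j, ∑ q, e (win k (φ j) q) s := by
        refine Finset.sum_congr rfl fun s hs => ?_
        rw [← hφ s (Finset.mem_filter.1 hs).2.1, count]
      have h3 : ∀ j, ∑ s ∈ (Finset.univ : Finset (Finset (Fin n))) with (s.card = k ∧ v ∈ s),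
          ∑ q, e (win k (φ j) q) s = k := by
        intro j
        rw [Finset.sum_comm]
        have h4 : ∀ q, ∑ s ∈ (Finset.univ : Finset (Finset (Fin n))) with (s.card = k ∧ v ∈ s),
            e (win k (φ j) q) s = if v ∈ win k (φ j) q then 1 else 0 := by
          intro q
          rw [← deg_e]
          refine Finset.sum_subset_zero_on_sdiff ?_ ?_ (fun _ _ => rfl)
          · intro s hs
            rw [Finset.mem_filter] at hs ⊢
            exact ⟨hs.1, hs.2.2⟩
          · intro s hs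
            rw [Finset.mem_sdiff, Finset.mem_filter, Finset.mem_filter] at hs
            rw [e, Pi.single_apply, if_neg]
            rintro rfl
            exact hs.2 ⟨hs.1.1, win_card k hkℓ (φ j) (φ j).injective q, hs.1.2⟩
        simp_rw [h4]
        have h5 := win_deg k hkℓ (φ j) (bij hsum (φ j)) v
        rw [Finset.card_filter] at h5
        exact_mod_cast h5
      rw [h2, Finset.sum_comm]
      simp_rw [h3]
      simp [mul_comm]
    have h6 : ∑ s ∈ (Finset.univ : Finset (Finset (Fin n))) with (s.card = k ∧ v ∈ s),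
        ((k * Λ : ℕ) : ℤ) = (k * Λ : ℕ) * ((n - 1).choose (k - 1) : ℕ) := by
      have h7 := deg_J k v (V := Fin n) (by omega)
      rw [hcardV] at h7
      simp only [J] at h7
      rw [← h7, Finset.sum_const, nsmul_eq_mul, mul_comm, ← Finset.sum_filter, Finset.sum_const,
        Finset.filter_filter, nsmul_eq_mul, mul_one]
      congr 3
      ext s
      simp [and_comm]
    rw [Finset.sum_add_distrib, h6] at h1
    have h8 := eq_sub_of_add_eq h1
    rw [h8]
    push_cast
    ring

end Pool.Agent.Results.MP_0d0865_co.ManyFold
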