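import Pool.Agent.H.MP_0d0865_co.AS.Main

/-!
# Decompositions of the complete 3-graph into tight cycle factors: powers of the primes from 5 to 23

For every prime `p` with `5 ≤ p ≤ 23` and every `d ≥ 1` the complete 3-graph on `n = p^d` vertices
decomposes into copies of the disjoint union of `p^(d-1)` tight cycles of length `p`.

The proof uses the affine space of dimension `d` over the field with `p` elements: every triple of points is
collinear or spans exactly one plane; the triples which span the line or the plane are decomposed
into factors of the line or the plane (a finite computation), and this is done at the same time in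
all the translates of the line or the plane.
-/

set_option autoImplicit false

namespace Pool.Agent.Results.MP_0d0865_co.PrimePowers

/-- The complete `k`-graph on `n` vertices decomposes into copies of the disjoint union of tight
cycles of lengths `ℓ i` (the conclusion of the frozen statement S07169, word for word). -/
def Decomposes (k n : ℕ) {m : ℕ} (ℓ : Fin m → ℕ) : Prop :=
  ∃ r : ℕ, ∃ φ : Fin r → ((Σ i : Fin m, ZMod (ℓ i)) ↪ Fin n),
    ∀ s : Finset (Fin n), s.card = k →
      ∃! p : Fin r × (Σ i : Fin m, ZMod (ℓ i)),
        s = (Finset.range k).image
          (fun j : ℕ => φ p.1 ⟨p.2.1, p.2.2 + (j : ZMod (ℓ p.2.1))⟩)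

theorem result (p : ℕ) (hp : p.Prime) (h5 : 5 ≤ p) (h23 : p ≤ 23) (d : ℕ) (hd : 1 ≤ d) :
    Decomposes 3 (p ^ d) (fun _ : Fin (p ^ (d - 1)) => p) :=
  Pool.Agent.H.MP_0d0865_co.AS.primes p hp h5 h23 d hd

end Pool.Agent.Results.MP_0d0865_co.PrimePowers
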